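import Pool.Agent.H408Z.Tri.Model

/-!
# A model of ZF with a set whose permutations are in bijection with its three element subsets
-/

set_option autoImplicit false

namespace Pool.Agent.Results.MP_7d095a_lc.AFactorialEqTriples

open Pool.Agent.H164Z.Bspt Pool.Agent.H408Z.Tri

/-- There is a model `(M, E)` of ZF with sets `a`, `s`, `t`, `f` such that, in the model, `s` is
the set of all bijections from `a` onto `a`, `t` is the set of all three element subsets of `a`,
and `f` is a bijection from `s` onto `t`. -/
theorem result : ∃ (M : Type) (E : M → M → Prop), IsZF E ∧ ∃ a s t f : M,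
    (∀ u, E u s ↔ IsBij E u a a) ∧ (∀ y, E y t ↔ Sub E y a ∧ IsTriple E y) ∧ IsBij E f s t :=
  main

end Pool.Agent.Results.MP_7d095a_lc.AFactorialEqTriples
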